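import Mathlib

/-!
# Module ABS: from expectations to almost sure bounds

`A j : Ω → ℝ≥0∞` measurable, `∫ A j ≤ C 2^(jθ)` for `j ≥ j0`. If `θ < θ'` then
`∫ ∑_(j ≥ j0) A j 2^(-jθ') ≤ C ∑ 2^(-j(θ'-θ)) < ∞` (`lintegral_tsum`), so the sum is finite almost everywhere
(`ae_lt_top`), in particular the terms are bounded. `ae_tendsto`: for `θ < 0` the same with `θ' = 0`:
the sum of the `A j` is finite, so `A j → 0` (`ENNReal.tendsto_atTop_zero_of_tsum_ne_top` or similar).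
-/

set_option autoImplicit false

namespace Pool.H19.Wb

open MeasureTheory Set Filter

namespace AbsAux

theorem two_rpow_mul (x : ℝ) : (2 : ℝ) ^ x * (2 : ℝ) ^ (-x) = 1 := by
  rw [← Real.rpow_add (by norm_num), add_neg_cancel, Real.rpow_zero]

/-- a geometric series of extended nonnegative numbers is finite -/
theorem geom_lt_top (C θ : ℝ) (hθ : θ < 0) (j0 : ℕ) :
    ∑' j : ℕ, ENNReal.ofReal (C * (2 : ℝ) ^ (((j + j0 : ℕ) : ℝ) * θ)) < ⊤ := by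
  have hs : Summable (fun j : ℕ => |C| * ((2 : ℝ) ^ ((j0 : ℝ) * θ) * ((2 : ℝ) ^ θ) ^ j)) := by
    refine Summable.mul_left _ (Summable.mul_left _ (summable_geometric_of_lt_one ?_ ?_))
    · positivity
    · exact Real.rpow_lt_one_of_one_lt_of_neg (by norm_num) hθ
  refine lt_of_le_of_lt (b := ∑' j : ℕ, ENNReal.ofReal
    (|C| * ((2 : ℝ) ^ ((j0 : ℝ) * θ) * ((2 : ℝ) ^ θ) ^ j))) ?_ ?_
  · refine ENNReal.tsum_le_tsum (fun j => ENNReal.ofReal_le_ofReal ?_)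
    have e : (2 : ℝ) ^ (((j + j0 : ℕ) : ℝ) * θ) = (2 : ℝ) ^ ((j0 : ℝ) * θ) * ((2 : ℝ) ^ θ) ^ j := by
      rw [← Real.rpow_natCast, ← Real.rpow_mul (by norm_num), ← Real.rpow_add (by norm_num)]
      congr 1
      push_cast
      ring
    rw [e]
    exact mul_le_mul_of_nonneg_right (le_abs_self C) (by positivity)
  · rw [← ENNReal.ofReal_tsum_of_nonneg (fun j => by positivity) hs]
    exact ENNReal.ofReal_lt_top

end AbsAux

open AbsAux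

theorem ae_bound {Ω : Type*} [MeasurableSpace Ω] (μ : Measure Ω) (A : ℕ → Ω → ENNReal)
    (hA : ∀ j, Measurable (A j)) (C θ θ' : ℝ) (j0 : ℕ)
    (h : ∀ j, j0 ≤ j → ∫⁻ ω, A j ω ∂μ ≤ ENNReal.ofReal (C * (2 : ℝ) ^ ((j : ℝ) * θ)))
    (hθ : θ < θ') (hfin : ∀ j ω, A j ω < ⊤) :
    ∀ᵐ ω ∂μ, ∃ C' : ℝ, 0 ≤ C' ∧ ∀ j, A j ω ≤ ENNReal.ofReal (C' * (2 : ℝ) ^ ((j : ℝ) * θ')) := by
  have hm : ∀ j : ℕ, Measurable (fun ω => A (j + j0) ω *
      ENNReal.ofReal ((2 : ℝ) ^ (-(((j + j0 : ℕ) : ℝ) * θ')))) :=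
    fun j => (hA _).mul_const _
  have h1 : ∫⁻ ω, ∑' j : ℕ, A (j + j0) ω *
      ENNReal.ofReal ((2 : ℝ) ^ (-(((j + j0 : ℕ) : ℝ) * θ'))) ∂μ < ⊤ := by
    rw [lintegral_tsum (fun j => (hm j).aemeasurable)]
    refine lt_of_le_of_lt (ENNReal.tsum_le_tsum (fun j => ?_))
      (geom_lt_top C (θ - θ') (by linarith) j0)
    rw [lintegral_mul_const _ (hA _)]
    refine (mul_le_mul_left (h (j + j0) (by omega)) _).trans ?_
    rw [← ENNReal.ofReal_mul' (by positivity)]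
    refine ENNReal.ofReal_le_ofReal (le_of_eq ?_)
    rw [mul_assoc, ← Real.rpow_add (by norm_num)]
    congr 2
    ring
  have h2 := ae_lt_top (Measurable.ennreal_tsum hm) h1.ne
  filter_upwards [h2] with ω hω
  obtain ⟨S, hS⟩ : ∃ S, S = ∑' j : ℕ, A (j + j0) ω *
      ENNReal.ofReal ((2 : ℝ) ^ (-(((j + j0 : ℕ) : ℝ) * θ'))) := ⟨_, rfl⟩
  rw [← hS] at hω
  refine ⟨S.toReal + ∑ j ∈ Finset.range j0, (A j ω).toReal * (2 : ℝ) ^ (-((j : ℝ) * θ')),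
    by positivity, fun j => ?_⟩
  have hsum : (0 : ℝ) ≤ ∑ j ∈ Finset.range j0, (A j ω).toReal * (2 : ℝ) ^ (-((j : ℝ) * θ')) := by
    positivity
  by_cases hj : j0 ≤ j
  · have e1 : A j ω * ENNReal.ofReal ((2 : ℝ) ^ (-((j : ℝ) * θ'))) ≤ S := by
      have := ENNReal.le_tsum (f := fun j : ℕ => A (j + j0) ω *
        ENNReal.ofReal ((2 : ℝ) ^ (-(((j + j0 : ℕ) : ℝ) * θ')))) (j - j0)
      rw [← hS] at this
      simp only [Nat.sub_add_cancel hj] at this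
      exact this
    have e2 : A j ω = A j ω * ENNReal.ofReal ((2 : ℝ) ^ (-((j : ℝ) * θ')))
        * ENNReal.ofReal ((2 : ℝ) ^ ((j : ℝ) * θ')) := by
      rw [mul_assoc, ← ENNReal.ofReal_mul (by positivity), mul_comm ((2 : ℝ) ^ (-((j : ℝ) * θ'))),
        two_rpow_mul, ENNReal.ofReal_one, mul_one]
    rw [e2]
    refine (mul_le_mul_left e1 _).trans ?_
    rw [ENNReal.ofReal_mul (by positivity)]
    refine mul_le_mul_left ?_ _
    rw [← ENNReal.ofReal_toReal hω.ne]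
    exact ENNReal.ofReal_le_ofReal (by rw [ENNReal.ofReal_toReal hω.ne]; linarith)
  · have e1 : (A j ω).toReal * (2 : ℝ) ^ (-((j : ℝ) * θ'))
        ≤ ∑ j ∈ Finset.range j0, (A j ω).toReal * (2 : ℝ) ^ (-((j : ℝ) * θ')) :=
      Finset.single_le_sum (f := fun j => (A j ω).toReal * (2 : ℝ) ^ (-((j : ℝ) * θ')))
        (fun i _ => by positivity) (Finset.mem_range.2 (by omega))
    rw [← ENNReal.ofReal_toReal (hfin j ω).ne]
    refine ENNReal.ofReal_le_ofReal ?_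
    have e2 : (A j ω).toReal = (A j ω).toReal * (2 : ℝ) ^ (-((j : ℝ) * θ')) *
        (2 : ℝ) ^ ((j : ℝ) * θ') := by
      rw [mul_assoc, mul_comm ((2 : ℝ) ^ (-((j : ℝ) * θ'))), two_rpow_mul, mul_one]
    rw [e2]
    refine mul_le_mul_of_nonneg_right ?_ (by positivity)
    have : (0 : ℝ) ≤ S.toReal := ENNReal.toReal_nonneg
    linarith

theorem ae_tendsto {Ω : Type*} [MeasurableSpace Ω] (μ : Measure Ω) (A : ℕ → Ω → ENNReal)
    (hA : ∀ j, Measurable (A j)) (C θ : ℝ) (j0 : ℕ)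
    (h : ∀ j, j0 ≤ j → ∫⁻ ω, A j ω ∂μ ≤ ENNReal.ofReal (C * (2 : ℝ) ^ ((j : ℝ) * θ)))
    (hθ : θ < 0) :
    ∀ᵐ ω ∂μ, Tendsto (fun j => A j ω) atTop (nhds 0) := by
  have h1 : ∫⁻ ω, ∑' j : ℕ, A (j + j0) ω ∂μ < ⊤ := by
    rw [lintegral_tsum (fun j => (hA _).aemeasurable)]
    exact lt_of_le_of_lt (ENNReal.tsum_le_tsum (fun j => h (j + j0) (by omega)))
      (geom_lt_top C θ hθ j0)
  have h2 := ae_lt_top (Measurable.ennreal_tsum (fun j => hA (j + j0))) h1.ne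
  filter_upwards [h2] with ω hω
  have h3 := ENNReal.tendsto_atTop_zero_of_tsum_ne_top hω.ne
  exact (tendsto_add_atTop_iff_nat (f := fun j => A j ω) j0).1 h3

/-- dyadic summation -/
theorem dyadic_sum (V : Set ℝ) (C θ : ℝ) (hC : 0 ≤ C) (hθ : 0 < θ)
    (h : ∀ j : ℕ, volume (V ∩ Icc (2 ^ j) (2 ^ (j + 1))) ≤
      ENNReal.ofReal (C * (2 : ℝ) ^ ((j : ℝ) * θ))) :
    ∃ C' : ℝ, ∀ j : ℕ, volume (V ∩ Icc 0 (2 ^ j)) ≤
      ENNReal.ofReal (C' * (2 : ℝ) ^ ((j : ℝ) * θ)) := by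
  have h2 : (1 : ℝ) < (2 : ℝ) ^ θ := Real.one_lt_rpow (by norm_num) hθ
  have hpos : (0 : ℝ) < (2 : ℝ) ^ θ - 1 := by linarith
  refine ⟨1 + C / ((2 : ℝ) ^ θ - 1), fun j => ?_⟩
  have hC' : (0 : ℝ) ≤ 1 + C / ((2 : ℝ) ^ θ - 1) := by positivity
  induction j with
  | zero =>
    refine (measure_mono inter_subset_right).trans ?_
    rw [Real.volume_Icc]
    refine ENNReal.ofReal_le_ofReal ?_
    have : (0 : ℝ) ≤ C / ((2 : ℝ) ^ θ - 1) := by positivity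
    simp
    exact this
  | succ j ih =>
    have hsub : V ∩ Icc (0 : ℝ) (2 ^ (j + 1)) ⊆
        (V ∩ Icc (0 : ℝ) (2 ^ j)) ∪ (V ∩ Icc (2 ^ j) (2 ^ (j + 1))) := by
      rintro x ⟨hx, hx0, hx1⟩
      rcases le_total x (2 ^ j) with h | h
      · exact Or.inl ⟨hx, hx0, h⟩
      · exact Or.inr ⟨hx, h, hx1⟩
    refine (measure_mono hsub).trans ((measure_union_le _ _).trans ?_)
    refine (add_le_add ih (h j)).trans ?_
    rw [← ENNReal.ofReal_add (by positivity) (by positivity)]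
    refine ENNReal.ofReal_le_ofReal ?_
    have e : (2 : ℝ) ^ (((j + 1 : ℕ) : ℝ) * θ) = (2 : ℝ) ^ ((j : ℝ) * θ) * (2 : ℝ) ^ θ := by
      rw [← Real.rpow_add (by norm_num)]
      congr 1
      push_cast
      ring
    rw [e]
    have e2 : (0 : ℝ) < (2 : ℝ) ^ ((j : ℝ) * θ) := by positivity
    have e3 : (1 + C / ((2 : ℝ) ^ θ - 1)) * ((2 : ℝ) ^ θ - 1) = ((2 : ℝ) ^ θ - 1) + C := by
      rw [add_mul, div_mul_cancel₀ _ hpos.ne', one_mul]
    nlinarith [mul_pos e2 hpos]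

end Pool.H19.Wb
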