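import Pool.Agent.H19.Wb.Defs

/-!
# Module MEAS: measurability

`{p | p.2 ∈ Zb k s η L p.1}` is the countable intersection (over `x : Fin s → ℕ`) of complements of
`{p | p.2 ≤ ∑ ...} ∩ {p | ∑ ... < p.2 + η}` (measurable: both sides are continuous functions of `p`).
`meas_vol`: `measurable_measure_prodMk_left`.
-/

set_option autoImplicit false

namespace Pool.H19.Wb

open MeasureTheory Set Filter Pool.H19.Wa

theorem measurable_Zb (k s : ℕ) (η : ℝ) (L : ℕ) :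
    MeasurableSet {p : (Fin s → ℝ) × ℝ | p.2 ∈ Zb k s η L p.1} := by
  have h : {p : (Fin s → ℝ) × ℝ | p.2 ∈ Zb k s η L p.1} =
      ⋂ x : Fin s → ℕ, {p : (Fin s → ℝ) × ℝ | (∀ i, L ≤ x i) →
        ¬ (p.2 ≤ ∑ i, ((x i : ℝ) + p.1 i) ^ k ∧ ∑ i, ((x i : ℝ) + p.1 i) ^ k < p.2 + η)} := by
    ext p
    simp only [Zb, mem_setOf_eq, mem_iInter]
  rw [h]
  refine MeasurableSet.iInter fun x => ?_
  by_cases hx : ∀ i, L ≤ x i
  · have h1 : Measurable (fun p : (Fin s → ℝ) × ℝ => ∑ i, ((x i : ℝ) + p.1 i) ^ k) := by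
      apply Continuous.measurable
      fun_prop
    have h2 : Measurable (fun p : (Fin s → ℝ) × ℝ => p.2) := measurable_snd
    have h3 : Measurable (fun p : (Fin s → ℝ) × ℝ => p.2 + η) := h2.add_const η
    have h4 : MeasurableSet {p : (Fin s → ℝ) × ℝ | p.2 ≤ ∑ i, ((x i : ℝ) + p.1 i) ^ k ∧
        ∑ i, ((x i : ℝ) + p.1 i) ^ k < p.2 + η} :=
      (measurableSet_le h2 h1).inter (measurableSet_lt h1 h3)
    have h5 : {p : (Fin s → ℝ) × ℝ | (∀ i, L ≤ x i) →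
        ¬ (p.2 ≤ ∑ i, ((x i : ℝ) + p.1 i) ^ k ∧ ∑ i, ((x i : ℝ) + p.1 i) ^ k < p.2 + η)} =
      {p : (Fin s → ℝ) × ℝ | p.2 ≤ ∑ i, ((x i : ℝ) + p.1 i) ^ k ∧
        ∑ i, ((x i : ℝ) + p.1 i) ^ k < p.2 + η}ᶜ := by
      ext p
      simp only [mem_setOf_eq, mem_compl_iff]
      exact ⟨fun h => h hx, fun h _ => h⟩
    rw [h5]
    exact h4.compl
  · have h5 : {p : (Fin s → ℝ) × ℝ | (∀ i, L ≤ x i) →
        ¬ (p.2 ≤ ∑ i, ((x i : ℝ) + p.1 i) ^ k ∧ ∑ i, ((x i : ℝ) + p.1 i) ^ k < p.2 + η)} =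
      Set.univ := by
      ext p
      simp only [mem_setOf_eq, mem_univ, iff_true]
      exact fun h => absurd h hx
    rw [h5]
    exact MeasurableSet.univ

theorem measurable_Zb_sec (k s : ℕ) (η : ℝ) (L : ℕ) (a : Fin s → ℝ) :
    MeasurableSet (Zb k s η L a) :=
  (measurable_prodMk_left (x := a)) (measurable_Zb k s η L)

/-- joint measurability of the measure of the missed set -/
theorem meas_vol (k s : ℕ) (η : ℝ) (L : ℕ) {I : Set ℝ} (hI : MeasurableSet I) :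
    Measurable (fun a : Fin s → ℝ => volume (Zb k s η L a ∩ I)) := by
  have h : MeasurableSet ({p : (Fin s → ℝ) × ℝ | p.2 ∈ Zb k s η L p.1} ∩
      {p : (Fin s → ℝ) × ℝ | p.2 ∈ I}) :=
    (measurable_Zb k s η L).inter (measurable_snd hI)
  exact measurable_measure_prodMk_left h

/-- a missed `m` for `s + 1` variables gives missed `m - (x+α)^k` for `s` variables -/
theorem Zb_cons (k s : ℕ) (η : ℝ) (L : ℕ) (a : Fin (s + 1) → ℝ) {m : ℝ}
    (hm : m ∈ Zb k (s + 1) η L a) (x : ℕ) (hx : L ≤ x) :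
    m - ((x : ℝ) + a 0) ^ k ∈ Zb k s η L (fun i => a i.succ) := by
  intro y hy hyy
  have h := hm (Fin.cons x y) (fun i => by
    refine Fin.cases ?_ (fun j => ?_) i
    · simpa using hx
    · simpa using hy j)
  apply h
  rw [Fin.sum_univ_succ]
  simp only [Fin.cons_zero, Fin.cons_succ]
  constructor
  · linarith [hyy.1]
  · linarith [hyy.2]

/-- `m` missed for `η` gives an interval of missed points for `η/2` -/
theorem Zb_half (k s : ℕ) (η : ℝ) (hη : 0 < η) (L : ℕ) (a : Fin s → ℝ) {m : ℝ}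
    (hm : m ∈ Zb k s η L a) : Icc m (m + η / 2) ⊆ Zb k s (η / 2) L a := by
  intro t ht y hy hyy
  apply hm y hy
  exact ⟨ht.1.trans hyy.1, by linarith [hyy.2, ht.2]⟩

end Pool.H19.Wb
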