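import Pool.Agent.H19.Wb.Prob2
import Pool.Agent.H19.Wb.Meas
import Pool.Agent.H19.Wb.Abs

/-!
# Module BASE: `k + 1` variables

`base_point`: given `m` large let `P = ⌊(2/3) ((m + η/2)/s)^(1/k)⌋` (`s = k+1`; compare `Wa.Pn` in `Wa/BadDefs.lean`, where
`m` is a natural number), so that `s (3P/2)^k ≤ m + η/2 ≤ s (3(P+1)/2)^k` and `P ≥ c m^(1/k)`, `P ≥ L`, `P ≥ P0`. If
`m ∈ Zb k s η L a` then `|∑ (x_i + a_i)^k - (m + η/2)| ≥ η/2` for all `x` with `P ≤ x_i < 2P`; apply `prob2`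
with `η/2`, `tau = m + η/2` and `ε' = k ε` (or smaller): the probability is
`≤ C P^(-1 + ε') ≤ C' m^(-1/k + ε)` (the exponent is negative if `ε` is small; if `ε ≥ 1/k` the bound `1 ≤ m^(-1/k+ε)`
is trivial).
`base_int`: Tonelli (`lintegral_lintegral_swap` with `measurable_Zb`): the left side is
`∫_(2^j)^(2^(j+1)) PP {a | m ∈ Zb} dm ≤ 2^j C (2^j)^(-1/k+ε) 2^ε` with `ε` such that `-1/k + ε ≤ -β`, if `β < 1/k`.
`base_Dp`: `ae_bound` (with `θ = 1 - β₁ < θ' = 1 - β`, `β < β₁ < 1/k`) and `dyadic_sum`.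
-/

set_option autoImplicit false

namespace Pool.H19.Wb

open MeasureTheory Set Filter Pool.H19.Wa

/-- the scale attached to the real target m -/
noncomputable def base_P (k s : ℕ) (η : ℝ) (m : ℝ) : ℕ :=
  ⌊(2 / 3 : ℝ) * ((m + η / 2) / s) ^ ((1 : ℝ) / k)⌋₊

theorem base_yk (k s : ℕ) (hk : 1 ≤ k) (η : ℝ) (hη : 0 < η) (m : ℝ) (hm : 0 ≤ m) :
    (((m + η / 2) / s) ^ ((1 : ℝ) / k)) ^ k = (m + η / 2) / s := by
  have h0 : 0 ≤ (m + η / 2) / s := by positivity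
  have hk0 : (k : ℝ) ≠ 0 := by
    have : (1 : ℝ) ≤ k := by exact_mod_cast hk
    positivity
  rw [← Real.rpow_natCast, ← Real.rpow_mul h0, one_div, inv_mul_cancel₀ hk0, Real.rpow_one]

theorem base_P_lower (k s : ℕ) (hk : 1 ≤ k) (hs : 1 ≤ s) (η : ℝ) (hη : 0 < η) (m : ℝ)
    (hm : 0 ≤ m) : (s : ℝ) * (3 * (base_P k s η m : ℝ) / 2) ^ k ≤ m + η / 2 := by
  have hs0 : (0 : ℝ) < s := by exact_mod_cast hs
  have h1 : (base_P k s η m : ℝ) ≤ (2 / 3 : ℝ) * ((m + η / 2) / s) ^ ((1 : ℝ) / k) :=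
    Nat.floor_le (by positivity)
  have h2 : 3 * (base_P k s η m : ℝ) / 2 ≤ ((m + η / 2) / s) ^ ((1 : ℝ) / k) := by linarith
  have h3 : (3 * (base_P k s η m : ℝ) / 2) ^ k ≤ (m + η / 2) / s := by
    rw [← base_yk k s hk η hη m hm]
    exact pow_le_pow_left₀ (by positivity) h2 k
  calc (s : ℝ) * (3 * (base_P k s η m : ℝ) / 2) ^ k ≤ s * ((m + η / 2) / s) := by gcongr
    _ = m + η / 2 := by field_simp

theorem base_P_upper (k s : ℕ) (hk : 1 ≤ k) (hs : 1 ≤ s) (η : ℝ) (hη : 0 < η) (m : ℝ)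
    (hm : 0 ≤ m) : m + η / 2 ≤ (s : ℝ) * (3 * ((base_P k s η m : ℝ) + 1) / 2) ^ k := by
  have hs0 : (0 : ℝ) < s := by exact_mod_cast hs
  have hy0 : 0 ≤ ((m + η / 2) / s) ^ ((1 : ℝ) / k) := by positivity
  have h1 : (2 / 3 : ℝ) * ((m + η / 2) / s) ^ ((1 : ℝ) / k) < (base_P k s η m : ℝ) + 1 :=
    Nat.lt_floor_add_one _
  have h2 : ((m + η / 2) / s) ^ ((1 : ℝ) / k) ≤ 3 * ((base_P k s η m : ℝ) + 1) / 2 := by
    linarith
  have h3 : (m + η / 2) / s ≤ (3 * ((base_P k s η m : ℝ) + 1) / 2) ^ k := by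
    rw [← base_yk k s hk η hη m hm]
    exact pow_le_pow_left₀ hy0 h2 k
  calc m + η / 2 = s * ((m + η / 2) / s) := by field_simp
    _ ≤ (s : ℝ) * (3 * ((base_P k s η m : ℝ) + 1) / 2) ^ k := by gcongr

/-- base_P grows like m^(1/k) -/
theorem base_P_growth (k s : ℕ) (hk : 1 ≤ k) (hs : 1 ≤ s) (η : ℝ) (hη : 0 < η) :
    ∃ c : ℝ, 0 < c ∧ ∃ m0 : ℝ, 1 ≤ m0 ∧ ∀ m : ℝ, m0 ≤ m →
      c * m ^ ((1 : ℝ) / k) ≤ base_P k s η m := by
  have hs0 : (0 : ℝ) < s := by exact_mod_cast hs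
  have hs1 : (1 : ℝ) ≤ s := by exact_mod_cast hs
  have hk0 : (k : ℝ) ≠ 0 := by
    have : (1 : ℝ) ≤ k := by exact_mod_cast hk
    positivity
  refine ⟨1 / (3 * (s : ℝ) ^ ((1 : ℝ) / k)), by positivity, 3 ^ k * s, ?_, fun m hm => ?_⟩
  · exact one_le_mul_of_one_le_of_one_le (one_le_pow₀ (by norm_num)) hs1
  have hm0 : 0 < m := lt_of_lt_of_le (by positivity) hm
  have hy1 : m ^ ((1 : ℝ) / k) / (s : ℝ) ^ ((1 : ℝ) / k) ≤
      ((m + η / 2) / s) ^ ((1 : ℝ) / k) := by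
    rw [← Real.div_rpow (by positivity) (by positivity)]
    apply Real.rpow_le_rpow (by positivity) _ (by positivity)
    gcongr
    linarith
  have hy2 : (3 : ℝ) ≤ m ^ ((1 : ℝ) / k) / (s : ℝ) ^ ((1 : ℝ) / k) := by
    rw [← Real.div_rpow (by positivity) (by positivity)]
    have h3 : (3 : ℝ) = ((3 : ℝ) ^ k) ^ ((1 : ℝ) / k) := by
      rw [← Real.rpow_natCast, ← Real.rpow_mul (by norm_num), mul_one_div, div_self hk0,
        Real.rpow_one]
    rw [h3]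
    apply Real.rpow_le_rpow (by positivity) _ (by positivity)
    rw [le_div_iff₀ hs0]
    exact hm
  have h1 : (2 / 3 : ℝ) * ((m + η / 2) / s) ^ ((1 : ℝ) / k) < (base_P k s η m : ℝ) + 1 :=
    Nat.lt_floor_add_one _
  have h2 : 1 / (3 * (s : ℝ) ^ ((1 : ℝ) / k)) * m ^ ((1 : ℝ) / k) =
      1 / 3 * (m ^ ((1 : ℝ) / k) / (s : ℝ) ^ ((1 : ℝ) / k)) := by
    field_simp
  rw [h2]
  linarith

theorem base_point (k : ℕ) (hk : 4 ≤ k) (η : ℝ) (hη : 0 < η) (L : ℕ) (ε : ℝ) (hε : 0 < ε) :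
    ∃ C : ℝ, 0 < C ∧ ∃ m0 : ℝ, 1 ≤ m0 ∧ ∀ m : ℝ, m0 ≤ m →
      PP (k + 1) {a | m ∈ Zb k (k + 1) η L a} ≤ ENNReal.ofReal (C * m ^ (-(1 : ℝ) / k + ε)) := by
  have hk4 : (4 : ℝ) ≤ k := by exact_mod_cast hk
  have hk0 : (0 : ℝ) < k := by linarith
  set ε' : ℝ := min (k * ε) 1 with hε'
  have hε'0 : 0 < ε' := lt_min (by positivity) one_pos
  have hε'1 : ε' ≤ 1 := min_le_right _ _
  have hε'k : ε' / k ≤ ε := by
    rw [div_le_iff₀ hk0, mul_comm]
    exact min_le_left _ _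
  obtain ⟨C, hC, P0, hP⟩ := prob2 k (k + 1) hk le_rfl (η / 2) ε' (by positivity) hε'0
  obtain ⟨c, hc, m1, hm1, hg⟩ := base_P_growth k (k + 1) (by omega) (by omega) η hη
  -- eventually large
  have E1 : ∀ᶠ m : ℝ in atTop, ((max P0 L : ℕ) : ℝ) ≤ c * m ^ ((1 : ℝ) / k) :=
    ((tendsto_rpow_atTop (by positivity : (0 : ℝ) < 1 / k)).const_mul_atTop hc).eventually_ge_atTop _
  obtain ⟨m2, hm2⟩ := eventually_atTop.mp E1
  refine ⟨C * c ^ (-1 + ε'), by positivity, max m1 m2, le_trans hm1 (le_max_left _ _),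
    fun m hm => ?_⟩
  have hmm1 : m1 ≤ m := le_trans (le_max_left _ _) hm
  have hmm2 : m2 ≤ m := le_trans (le_max_right _ _) hm
  have hm1' : 1 ≤ m := hm1.trans hmm1
  have hm0 : 0 < m := by linarith
  have g1 := hg m hmm1
  have g2 := hm2 m hmm2
  have g3 : max P0 L ≤ base_P k (k + 1) η m := by exact_mod_cast g2.trans g1
  have hPP0 : P0 ≤ base_P k (k + 1) η m := (le_max_left _ _).trans g3
  have hPL : L ≤ base_P k (k + 1) η m := (le_max_right _ _).trans g3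
  have key := hP (base_P k (k + 1) η m) hPP0 (m + η / 2)
    (base_P_lower k (k + 1) (by omega) (by omega) η hη m hm0.le)
    (base_P_upper k (k + 1) (by omega) (by omega) η hη m hm0.le)
  refine le_trans (measure_mono ?_) (key.trans ?_)
  · intro a ha x hx
    have h := ha x (fun i => hPL.trans (hx i).1)
    by_contra hcon
    push Not at hcon
    rw [abs_lt] at hcon
    exact h ⟨by linarith, by linarith⟩
  · apply ENNReal.ofReal_le_ofReal
    have e1 : -(((k + 1 : ℕ) : ℝ) - k) + ε' = -1 + ε' := by push_cast; ring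
    rw [e1, mul_assoc]
    apply mul_le_mul_of_nonneg_left _ hC.le
    have hcm : 0 < c * m ^ ((1 : ℝ) / k) := by positivity
    calc (base_P k (k + 1) η m : ℝ) ^ (-1 + ε') ≤ (c * m ^ ((1 : ℝ) / k)) ^ (-1 + ε') :=
          Real.rpow_le_rpow_of_nonpos hcm g1 (by linarith)
      _ = c ^ (-1 + ε') * m ^ ((1 : ℝ) / k * (-1 + ε')) := by
          rw [Real.mul_rpow hc.le (by positivity), ← Real.rpow_mul hm0.le]
      _ ≤ c ^ (-1 + ε') * m ^ (-(1 : ℝ) / k + ε) := by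
          apply mul_le_mul_of_nonneg_left _ (by positivity)
          apply Real.rpow_le_rpow_of_exponent_le hm1'
          have : (1 : ℝ) / k * (-1 + ε') = -(1 : ℝ) / k + ε' / k := by ring
          rw [this]
          linarith

theorem base_int (k : ℕ) (hk : 4 ≤ k) (η : ℝ) (hη : 0 < η) (L : ℕ) (β : ℝ) (hβ : β < 1 / k) :
    ∃ C : ℝ, ∃ j0 : ℕ, ∀ j : ℕ, j0 ≤ j →
      ∫⁻ a, volume (Zb k (k + 1) η L a ∩ Icc (2 ^ j) (2 ^ (j + 1))) ∂PP (k + 1) ≤
        ENNReal.ofReal (C * (2 : ℝ) ^ ((j : ℝ) * (1 - β))) := by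
  have hk4 : (4 : ℝ) ≤ k := by exact_mod_cast hk
  have hk0 : (0 : ℝ) < k := by linarith
  set ε : ℝ := min (1 / k - β) (1 / k) with hεdef
  have hε : 0 < ε := lt_min (by linarith) (by positivity)
  have hε1 : ε ≤ 1 / k - β := min_le_left _ _
  have hε2 : ε ≤ 1 / k := min_le_right _ _
  have hneg : -(1 : ℝ) / k + ε ≤ 0 := by
    have : -(1 : ℝ) / k = - (1 / k) := by ring
    rw [this]; linarith
  have hnegβ : -(1 : ℝ) / k + ε ≤ -β := by
    have : -(1 : ℝ) / k = - (1 / k) := by ring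
    rw [this]; linarith
  obtain ⟨C, hC, m0, hm0, hp⟩ := base_point k hk η hη L ε hε
  obtain ⟨j0, hj0⟩ : ∃ j0 : ℕ, m0 ≤ (2 : ℝ) ^ j0 := by
    obtain ⟨n, hn⟩ := pow_unbounded_of_one_lt m0 (by norm_num : (1 : ℝ) < 2)
    exact ⟨n, hn.le⟩
  refine ⟨C, j0, fun j hj => ?_⟩
  set I : Set ℝ := Icc ((2 : ℝ) ^ j) (2 ^ (j + 1)) with hI
  have hIm : MeasurableSet I := measurableSet_Icc
  have hmeas := measurable_Zb k (k + 1) η L
  have e1 : ∀ a : Fin (k + 1) → ℝ, volume (Zb k (k + 1) η L a ∩ I) =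
      ∫⁻ m in I, (Zb k (k + 1) η L a).indicator 1 m := by
    intro a
    rw [lintegral_indicator_one (measurable_Zb_sec k (k + 1) η L a),
      Measure.restrict_apply (measurable_Zb_sec k (k + 1) η L a)]
  have e2 : ∀ a : Fin (k + 1) → ℝ, ∀ m : ℝ, (Zb k (k + 1) η L a).indicator (1 : ℝ → ENNReal) m =
      ({p : (Fin (k + 1) → ℝ) × ℝ | p.2 ∈ Zb k (k + 1) η L p.1}).indicator 1 (a, m) := by
    intro a m
    simp only [Set.indicator, Set.mem_ofPred_eq]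
    rfl
  simp only [e1, e2]
  rw [lintegral_lintegral_swap]
  swap
  · exact ((measurable_one).indicator hmeas).aemeasurable
  have e3 : ∀ m : ℝ, ∫⁻ a, ({p : (Fin (k + 1) → ℝ) × ℝ | p.2 ∈ Zb k (k + 1) η L p.1}).indicator
      (1 : (Fin (k + 1) → ℝ) × ℝ → ENNReal) (a, m) ∂PP (k + 1) =
      PP (k + 1) {a | m ∈ Zb k (k + 1) η L a} := by
    intro m
    have hs : MeasurableSet {a : Fin (k + 1) → ℝ | m ∈ Zb k (k + 1) η L a} :=
      (measurable_id.prodMk measurable_const) hmeas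
    rw [← lintegral_indicator_one hs]
    rfl
  simp only [e3]
  have e4 : ∀ m ∈ I, PP (k + 1) {a | m ∈ Zb k (k + 1) η L a} ≤
      ENNReal.ofReal (C * (2 : ℝ) ^ ((j : ℝ) * (-β))) := by
    intro m hm
    have h2j : (0 : ℝ) < 2 ^ j := by positivity
    have hm1 : m0 ≤ m := hj0.trans ((pow_le_pow_right₀ (by norm_num) hj).trans hm.1)
    refine (hp m hm1).trans (ENNReal.ofReal_le_ofReal ?_)
    apply mul_le_mul_of_nonneg_left _ hC.le
    calc m ^ (-(1 : ℝ) / k + ε) ≤ ((2 : ℝ) ^ j) ^ (-(1 : ℝ) / k + ε) :=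
          Real.rpow_le_rpow_of_nonpos h2j hm.1 hneg
      _ = (2 : ℝ) ^ ((j : ℝ) * (-(1 : ℝ) / k + ε)) := by
          rw [← Real.rpow_natCast, ← Real.rpow_mul (by norm_num)]
      _ ≤ (2 : ℝ) ^ ((j : ℝ) * (-β)) := by
          apply Real.rpow_le_rpow_of_exponent_le (by norm_num)
          exact mul_le_mul_of_nonneg_left hnegβ (Nat.cast_nonneg j)
  calc ∫⁻ m in I, PP (k + 1) {a | m ∈ Zb k (k + 1) η L a}
      ≤ ∫⁻ m in I, ENNReal.ofReal (C * (2 : ℝ) ^ ((j : ℝ) * (-β))) :=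
        setLIntegral_mono measurable_const e4
    _ = ENNReal.ofReal (C * (2 : ℝ) ^ ((j : ℝ) * (-β))) * volume I := by
        rw [setLIntegral_const]
    _ = ENNReal.ofReal (C * (2 : ℝ) ^ ((j : ℝ) * (1 - β))) := by
        rw [hI, Real.volume_Icc, ← ENNReal.ofReal_mul (by positivity)]
        congr 1
        have : (2 : ℝ) ^ (j + 1) - 2 ^ j = (2 : ℝ) ^ ((j : ℝ)) := by
          rw [Real.rpow_natCast]; ring
        rw [this, mul_assoc, ← Real.rpow_add (by norm_num)]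
        congr 2
        ring

theorem base_Dp (k : ℕ) (hk : 4 ≤ k) (β : ℝ) (hβ : β < 1 / k) : Dp k (k + 1) β := by
  intro η hη L
  have hk4 : (4 : ℝ) ≤ k := by exact_mod_cast hk
  have hk0 : (0 : ℝ) < k := by linarith
  obtain ⟨C, j0, h⟩ := base_int k hk η hη L ((β + 1 / k) / 2) (by linarith)
  have hb := ae_bound (PP (k + 1))
    (fun (j : ℕ) (a : Fin (k + 1) → ℝ) => volume (Zb k (k + 1) η L a ∩ Icc (2 ^ j) (2 ^ (j + 1))))
    (fun j => meas_vol k (k + 1) η L measurableSet_Icc) C (1 - (β + 1 / k) / 2) (1 - β) j0 h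
    (by linarith) (fun j a => lt_of_le_of_lt (measure_mono inter_subset_right) (by simp))
  filter_upwards [hb] with a ha
  obtain ⟨C', hC', hj⟩ := ha
  have h14 : (1 : ℝ) / k ≤ 1 := by
    rw [div_le_one hk0]; linarith
  exact dyadic_sum (Zb k (k + 1) η L a) C' (1 - β) hC' (by linarith) hj

end Pool.H19.Wb
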