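import Pool.Agent.H19.Wa.Defs

/-!
# Few shifted powers: definitions (helper19, MP_efcac8_nt)

THEOREM. Let `k >= 4` and `s >= k + 2 + floor(log_2 k)`. For almost every `a` in `R^s`: for every `η > 0`
every large real `τ` satisfies `τ <= ∑ (x_i + a_i)^k < τ + η` for some `x` in `N^s`.

PROOF. `Zb k s η L a` is the set of `m` such that `[m, m+η)` contains no value
`∑ (x_i + a_i)^k` with all `x_i >= L`.
(1) Base (variance, `Wa`): for `s = k+1` a given `m` is in `Zb` with probability `<= C m^(-1/k+ε)`, so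
for almost every `a` in the unit cube the measure of `Zb` up to `2^j` is `<= C_a 2^(j(1-β))`, for every `β < 1/k`.
(2) Squaring: if `m` is missed by `s + 1` variables (shifts `(α, a)`), then all the
`m - (x+α)^k`, `x >= L`, are missed by `s` variables. Two values `x = y`, `y + U` suffice: as `y` runs through
`U, ..., 2U-1` and `α` through `[0,1]`, `(y+U+α)^k - (y+α)^k` runs once through an interval with
density at most `U^(1-k)`, so the measure of the set of missed `m` in `[2^j, 2^(j+1)]`, averaged over `α`, is at most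
`|Zb ∩ [0,2^(j+1)]|^2 / U^k`, `U^k ≈ 2^j`: the exponent `β` is doubled.
(3) After `t` steps `β` may be any number below `2^t/k`; once `β > 1/2` the next step gives measure tending to `0`,
and then there are no missed `m` at all for `2 η`, `m` large.
-/

set_option autoImplicit false

namespace Pool.H19.Wb

open MeasureTheory Set Filter Pool.H19.Wa

noncomputable section

/-- the `m` such that `[m, m+η)` contains no value of `∑ (x_i + a_i)^k`, `x_i >= L` -/
def Zb (k s : ℕ) (η : ℝ) (L : ℕ) (a : Fin s → ℝ) : Set ℝ :=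
  {m | ∀ x : Fin s → ℕ, (∀ i, L ≤ x i) →
    ¬ (m ≤ ∑ i, ((x i : ℝ) + a i) ^ k ∧ ∑ i, ((x i : ℝ) + a i) ^ k < m + η)}

/-- the missed set has density exponent at least `β` -/
def Dp (k s : ℕ) (β : ℝ) : Prop :=
  ∀ η : ℝ, 0 < η → ∀ L : ℕ, ∀ᵐ a ∂PP s, ∃ C : ℝ, ∀ j : ℕ,
    volume (Zb k s η L a ∩ Icc 0 (2 ^ j)) ≤ ENNReal.ofReal (C * (2 : ℝ) ^ ((j : ℝ) * (1 - β)))

/-- the measure of the missed set in dyadic intervals tends to zero -/
def Fp (k s : ℕ) : Prop :=
  ∀ η : ℝ, 0 < η → ∀ L : ℕ, ∀ᵐ a ∂PP s,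
    Tendsto (fun j : ℕ => volume (Zb k s η L a ∩ Icc (2 ^ j) (2 ^ (j + 1)))) atTop (nhds 0)

end

end Pool.H19.Wb
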