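import Mathlib

/-!
# Module SQ: the squaring lemma

For `y` in `{U, ..., 2U-1}` and `α` in `[0,1]` the set on the left is contained in
`{m | m - (y+U+α)^k ∈ Z and m - (y+α)^k ∈ Z}`, whose measure is `φ(g(y+α))`, where `g(u) = (u+U)^k - u^k` and
`φ(h) = volume {z | z ∈ Z ∧ z + h ∈ Z}` (translate by `(y+U+α)^k`; `(y+U+α)^k - (y+α)^k = g (y+α)`).
Summing over `y` and dividing by `U`:
`∫_0^1 (measure) dα ≤ (1/U) ∑_y ∫_0^1 φ(g(y+α)) dα = (1/U) ∫_U^(2U) φ(g(u)) du`.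
On `[U, 2U]` the function `g` is strictly increasing with
`g' = k ((u+U)^(k-1) - u^(k-1)) ≥ U^(k-1)` (as `k ≥ 2`: `(u+U)^(k-1) ≥ u^(k-1) + U^(k-1)`), so by
`lintegral_image_eq_lintegral_abs_deriv_mul` `∫_U^(2U) φ(g(u)) du ≤ U^(-(k-1)) ∫ φ(h) dh`, and `∫ φ(h) dh = |Z|^2` (Tonelli,
translation invariance).
-/

set_option autoImplicit false

namespace Pool.H19.Wb

open MeasureTheory Set Filter

theorem sq_pair_meas (Z : Set ℝ) (hZ : MeasurableSet Z) :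
    MeasurableSet {p : ℝ × ℝ | p.2 ∈ Z ∧ p.2 + p.1 ∈ Z} := by
  apply MeasurableSet.inter
  · exact measurable_snd hZ
  · exact (measurable_snd.add measurable_fst) hZ

theorem sq_phi (Z : Set ℝ) (hZ : MeasurableSet Z) :
    ∫⁻ h : ℝ, volume {z : ℝ | z ∈ Z ∧ z + h ∈ Z} = volume Z * volume Z := by
  have hS := sq_pair_meas Z hZ
  have h1 : (volume : Measure (ℝ × ℝ)) {p : ℝ × ℝ | p.2 ∈ Z ∧ p.2 + p.1 ∈ Z} =
      ∫⁻ h : ℝ, volume {z : ℝ | z ∈ Z ∧ z + h ∈ Z} := by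
    rw [Measure.volume_eq_prod, Measure.prod_apply hS]
    rfl
  have h2 : (volume : Measure (ℝ × ℝ)) {p : ℝ × ℝ | p.2 ∈ Z ∧ p.2 + p.1 ∈ Z} =
      ∫⁻ z : ℝ, volume {h : ℝ | z ∈ Z ∧ z + h ∈ Z} := by
    rw [Measure.volume_eq_prod, Measure.prod_apply_symm hS]
    rfl
  rw [← h1, h2]
  have h3 : ∀ z : ℝ, volume {h : ℝ | z ∈ Z ∧ z + h ∈ Z} =
      Z.indicator (fun _ => volume Z) z := by
    intro z
    by_cases hz : z ∈ Z
    · rw [indicator_of_mem hz]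
      have : {h : ℝ | z ∈ Z ∧ z + h ∈ Z} = (fun h => z + h) ⁻¹' Z := by
        ext h
        simp [hz]
      rw [this, measure_preimage_add]
    · rw [indicator_of_notMem hz]
      have : {h : ℝ | z ∈ Z ∧ z + h ∈ Z} = ∅ := by
        ext h
        simp [hz]
      rw [this, measure_empty]
  simp_rw [h3]
  rw [lintegral_indicator hZ, setLIntegral_const]

theorem sq_phi_meas (Z : Set ℝ) (hZ : MeasurableSet Z) :
    Measurable (fun h : ℝ => volume {z : ℝ | z ∈ Z ∧ z + h ∈ Z}) := by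
  have := measurable_measure_prodMk_left (ν := (volume : Measure ℝ)) (sq_pair_meas Z hZ)
  exact this

/-- the derivative of `(u + U)^k - u^k` -/
theorem sq_deriv (k U : ℕ) (u : ℝ) :
    HasDerivAt (fun u : ℝ => (u + U) ^ k - u ^ k)
      ((k : ℝ) * (u + U) ^ (k - 1) - (k : ℝ) * u ^ (k - 1)) u := by
  have h1 : HasDerivAt (fun u : ℝ => (u + U)) 1 u := (hasDerivAt_id u).add_const _
  have h2 := h1.pow k
  have h3 := hasDerivAt_pow k u
  have h4 := h2.sub h3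
  rw [mul_one] at h4
  exact h4

theorem sq_deriv_ge (k U : ℕ) (hk : 2 ≤ k) (u : ℝ) (hu : (U : ℝ) ≤ u) :
    (U : ℝ) ^ (k - 1) ≤ (k : ℝ) * (u + U) ^ (k - 1) - (k : ℝ) * u ^ (k - 1) := by
  have hU : (0 : ℝ) ≤ U := Nat.cast_nonneg U
  have hu0 : 0 ≤ u := hU.trans hu
  have h1 : u ^ (k - 1) + (U : ℝ) ^ (k - 1) ≤ (u + U) ^ (k - 1) :=
    pow_add_pow_le hu0 hU (by omega)
  have h2 : (1 : ℝ) ≤ k := by exact_mod_cast (by omega : 1 ≤ k)
  have h3 : 0 ≤ (U : ℝ) ^ (k - 1) := by positivity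
  have h4 : (k : ℝ) * (U : ℝ) ^ (k - 1) ≤ (k : ℝ) * (u + U) ^ (k - 1) - (k : ℝ) * u ^ (k - 1) := by
    nlinarith
  nlinarith

/-- change of variables -/
theorem sq_change (k U : ℕ) (hk : 2 ≤ k) (hU : 1 ≤ U) (φ : ℝ → ENNReal) (hφ : Measurable φ) :
    ∫⁻ u in Ico (U : ℝ) (2 * U), φ ((u + U) ^ k - u ^ k) ≤
      (∫⁻ h : ℝ, φ h) / ENNReal.ofReal ((U : ℝ) ^ (k - 1)) := by
  have hUpos : (0 : ℝ) < U := by exact_mod_cast (by omega : 0 < U)
  have hUk : (0 : ℝ) < (U : ℝ) ^ (k - 1) := by positivity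
  rw [ENNReal.le_div_iff_mul_le (Or.inl (ENNReal.ofReal_pos.mpr hUk).ne') (Or.inl ENNReal.ofReal_ne_top)]
  have hinj : InjOn (fun u : ℝ => (u + U) ^ k - u ^ k) (Ico (U : ℝ) (2 * U)) := by
    apply StrictMonoOn.injOn
    apply strictMonoOn_of_deriv_pos (convex_Ico _ _)
    · exact Continuous.continuousOn (by fun_prop)
    · intro u hu
      rw [interior_Ico] at hu
      rw [(sq_deriv k U u).deriv]
      exact hUk.trans_le (sq_deriv_ge k U hk u hu.1.le)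
  have hcv := lintegral_image_eq_lintegral_abs_deriv_mul (measurableSet_Ico)
    (fun u _ => (sq_deriv k U u).hasDerivWithinAt) hinj φ
  calc (∫⁻ u in Ico (U : ℝ) (2 * U), φ ((u + U) ^ k - u ^ k)) * ENNReal.ofReal ((U : ℝ) ^ (k - 1))
      = ∫⁻ u in Ico (U : ℝ) (2 * U), φ ((u + U) ^ k - u ^ k) * ENNReal.ofReal ((U : ℝ) ^ (k - 1)) := by
        rw [lintegral_mul_const]
        exact hφ.comp (by fun_prop)
    _ ≤ ∫⁻ u in Ico (U : ℝ) (2 * U), ENNReal.ofReal |(k : ℝ) * (u + U) ^ (k - 1) -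
          (k : ℝ) * u ^ (k - 1)| * φ ((u + U) ^ k - u ^ k) := by
        apply setLIntegral_mono' measurableSet_Ico
        intro u hu
        rw [mul_comm]
        gcongr
        exact (sq_deriv_ge k U hk u hu.1).trans (le_abs_self _)
    _ = ∫⁻ x in (fun u : ℝ => (u + U) ^ k - u ^ k) '' Ico (U : ℝ) (2 * U), φ x := hcv.symm
    _ ≤ ∫⁻ h : ℝ, φ h := setLIntegral_le_lintegral _ _

/-- unfolding of one integral -/
theorem sq_unfold_one (y : ℕ) (φ : ℝ → ENNReal) :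
    ∫⁻ α in Icc (0 : ℝ) 1, φ ((y : ℝ) + α) = ∫⁻ u in Ico (y : ℝ) ((y : ℝ) + 1), φ u := by
  have h1 : ∫⁻ u in Ico (y : ℝ) ((y : ℝ) + 1), φ u =
      ∫⁻ u in Icc (y : ℝ) ((y : ℝ) + 1), φ u := by
    rw [setLIntegral_congr Ico_ae_eq_Icc]
  rw [h1]
  have h2 := lintegral_add_left_eq_self (μ := (volume : Measure ℝ))
    ((Icc (y : ℝ) ((y : ℝ) + 1)).indicator φ) (y : ℝ)
  rw [lintegral_indicator measurableSet_Icc] at h2
  rw [← h2, ← lintegral_indicator measurableSet_Icc]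
  apply lintegral_congr
  intro x
  by_cases hx : x ∈ Icc (0 : ℝ) 1
  · rw [indicator_of_mem hx, indicator_of_mem]
    exact ⟨by linarith [hx.1], by linarith [hx.2]⟩
  · rw [indicator_of_notMem hx, indicator_of_notMem]
    intro h
    exact hx ⟨by linarith [h.1], by linarith [h.2]⟩

/-- unfolding of the integral over `[U, 2U)` -/
theorem sq_unfold (U : ℕ) (φ : ℝ → ENNReal) (hφ : Measurable φ) :
    ∑ y ∈ Finset.Ico U (2 * U), ∫⁻ α in Icc (0 : ℝ) 1, φ ((y : ℝ) + α) =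
      ∫⁻ u in Ico (U : ℝ) (2 * U), φ u := by
  have key : ∀ n : ℕ, ∑ y ∈ Finset.Ico U (U + n), ∫⁻ α in Icc (0 : ℝ) 1, φ ((y : ℝ) + α) =
      ∫⁻ u in Ico (U : ℝ) ((U : ℝ) + n), φ u := by
    intro n
    induction n with
    | zero => simp
    | succ n ih =>
      rw [← Nat.add_assoc, Finset.sum_Ico_succ_top (by omega), ih, sq_unfold_one]
      have h1 : Ico (U : ℝ) ((U : ℝ) + ((n + 1 : ℕ) : ℝ)) =
          Ico (U : ℝ) ((U : ℝ) + n) ∪ Ico (((U + n : ℕ) : ℝ)) (((U + n : ℕ) : ℝ) + 1) := by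
        push_cast
        rw [Ico_union_Ico_eq_Ico]
        · rw [add_assoc]
        · linarith [(Nat.cast_nonneg n : (0 : ℝ) ≤ n)]
        · linarith
      rw [h1, lintegral_union measurableSet_Ico]
      push_cast
      rw [Set.Ico_disjoint_Ico]
      simp
  have := key U
  rw [show U + U = 2 * U by ring] at this
  rw [this]
  congr 2
  ring_nf

theorem squaring (k U : ℕ) (hk : 2 ≤ k) (hU : 1 ≤ U) (Z : Set ℝ) (hZ : MeasurableSet Z) :
    ∫⁻ α in Icc (0 : ℝ) 1, volume {m : ℝ | ∀ x : ℕ, U ≤ x → x < 3 * U →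
      m - ((x : ℝ) + α) ^ k ∈ Z} ≤ volume Z * volume Z / ENNReal.ofReal ((U : ℝ) ^ k) := by
  have hUpos : (0 : ℝ) < U := by exact_mod_cast (by omega : 0 < U)
  set S : ℝ → ENNReal := fun α => volume {m : ℝ | ∀ x : ℕ, U ≤ x → x < 3 * U →
      m - ((x : ℝ) + α) ^ k ∈ Z} with hS
  set φ : ℝ → ENNReal := fun h => volume {z : ℝ | z ∈ Z ∧ z + h ∈ Z} with hφ
  have hφm : Measurable φ := sq_phi_meas Z hZ
  have hφm2 : Measurable (fun u : ℝ => φ ((u + U) ^ k - u ^ k)) := hφm.comp (by fun_prop)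
  -- pointwise bound
  have hpt : ∀ y ∈ Finset.Ico U (2 * U), ∀ α : ℝ,
      S α ≤ φ ((((y : ℝ) + α) + U) ^ k - ((y : ℝ) + α) ^ k) := by
    intro y hy α
    rw [Finset.mem_Ico] at hy
    have h1 : S α ≤ volume ((fun m : ℝ => m + (-(((y : ℝ) + α) + U) ^ k)) ⁻¹'
        {z : ℝ | z ∈ Z ∧ z + ((((y : ℝ) + α) + U) ^ k - ((y : ℝ) + α) ^ k) ∈ Z}) := by
      apply measure_mono
      intro m hm
      simp only [mem_ofPred_eq] at hm
      have ha := hm (y + U) (by omega) (by omega)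
      have hb := hm y hy.1 (by omega)
      push_cast at ha
      simp only [mem_preimage, mem_ofPred_eq]
      constructor
      · convert ha using 1
        ring
      · convert hb using 1
        ring
    refine h1.trans (le_of_eq ?_)
    rw [measure_preimage_add_right]
  have hsum : (U : ENNReal) * ∫⁻ α in Icc (0 : ℝ) 1, S α ≤
      (volume Z * volume Z) / ENNReal.ofReal ((U : ℝ) ^ (k - 1)) := by
    calc (U : ENNReal) * ∫⁻ α in Icc (0 : ℝ) 1, S α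
        = ∑ y ∈ Finset.Ico U (2 * U), ∫⁻ α in Icc (0 : ℝ) 1, S α := by
          rw [Finset.sum_const, Nat.card_Ico, nsmul_eq_mul]
          congr 2
          omega
      _ ≤ ∑ y ∈ Finset.Ico U (2 * U), ∫⁻ α in Icc (0 : ℝ) 1,
            (fun u : ℝ => φ ((u + U) ^ k - u ^ k)) ((y : ℝ) + α) := by
          apply Finset.sum_le_sum
          intro y hy
          exact lintegral_mono (fun α => hpt y hy α)
      _ = ∫⁻ u in Ico (U : ℝ) (2 * U), φ ((u + U) ^ k - u ^ k) :=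
          sq_unfold U (fun u : ℝ => φ ((u + U) ^ k - u ^ k)) hφm2
      _ ≤ (∫⁻ h : ℝ, φ h) / ENNReal.ofReal ((U : ℝ) ^ (k - 1)) := sq_change k U hk hU φ hφm
      _ = (volume Z * volume Z) / ENNReal.ofReal ((U : ℝ) ^ (k - 1)) := by
          rw [hφ, sq_phi Z hZ]
  have hUk : (0 : ℝ) < (U : ℝ) ^ k := by positivity
  have hUk1 : (0 : ℝ) < (U : ℝ) ^ (k - 1) := by positivity
  rw [ENNReal.le_div_iff_mul_le (Or.inl (ENNReal.ofReal_pos.mpr hUk).ne') (Or.inl ENNReal.ofReal_ne_top)]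
  rw [ENNReal.le_div_iff_mul_le (Or.inl (ENNReal.ofReal_pos.mpr hUk1).ne') (Or.inl ENNReal.ofReal_ne_top)] at hsum
  have hpow : ENNReal.ofReal ((U : ℝ) ^ k) = (U : ENNReal) * ENNReal.ofReal ((U : ℝ) ^ (k - 1)) := by
    rw [← ENNReal.ofReal_natCast, ← ENNReal.ofReal_mul hUpos.le, ← pow_succ']
    congr 2
    omega
  rw [hpow]
  calc (∫⁻ α in Icc (0 : ℝ) 1, S α) * ((U : ENNReal) * ENNReal.ofReal ((U : ℝ) ^ (k - 1)))
      = (U : ENNReal) * (∫⁻ α in Icc (0 : ℝ) 1, S α) * ENNReal.ofReal ((U : ℝ) ^ (k - 1)) := by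
        ring
    _ ≤ volume Z * volume Z := hsum

end Pool.H19.Wb
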