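import Pool.Agent.H19.Wb.Meas
import Pool.Agent.H19.Wb.Abs
import Pool.Agent.H19.Wb.Sq

/-!
# Module STEP: one more variable doubles the exponent

`step_int`: for `j` large let `U = ⌊2^(j/k) / 3⌋` (real power), so `L ≤ U`, `1 ≤ U`, `(3U)^k ≤ 2^j` and `U^k ≥ 2^j / 6^k`. For
`m ∈ Zb k (s+1) η L (Fin.cons α a) ∩ [2^j, 2^(j+1)]`, `α ∈ [0,1]` and `U ≤ x < 3U` the point `m - (x+α)^k` lies in
`Z = Zb k s η L a ∩ [0, 2^(j+1)]` (`Zb_cons`; `0 ≤ (x+α)^k ≤ (3U)^k ≤ 2^j ≤ m`). So by `squaring` the integral is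
`≤ |Z|^2 / U^k ≤ 6^k C^2 2^(2(j+1)(1-β)) / 2^j`.
`ae_cons`: `PP (s+1)` is the image of the product of `volume.restrict (Icc 0 1)` and `PP s` under
`(α, a) ↦ Fin.cons α a` (`measurePreserving_piFinSuccAbove` at `0`), and `Measure.measure_prod_null` /
`Measure.measure_ae_null_of_prod_null` style lemmas for the measurable set.
`step_Dp`: for almost every `a` take `C` from `Dp k s β`, `step_int`, `ae_bound` with `θ = 1 - 2β < θ' = 1 - β'` for the measure
`volume.restrict (Icc 0 1)` and `A j α = volume (Zb k (s+1) η L (Fin.cons α a) ∩ Icc (2^j) (2^(j+1)))`, `dyadic_sum`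
(`1 - β' > 0`); then `ae_cons`: the event is measurable since `∃ C : ℝ` may be replaced by `∃ C : ℕ`
(countable union of countable intersections of `{f_j ≤ c_j}`, `meas_vol`).
`step_Fp`: the same with `ae_tendsto` (`1 - 2β < 0`); the event `Tendsto f_j 0` is measurable
(`measurableSet_tendsto` or via rational `ε`).
-/

set_option autoImplicit false

namespace Pool.H19.Wb

open MeasureTheory Set Filter Pool.H19.Wa

theorem step_int (k s : ℕ) (hk : 2 ≤ k) (η : ℝ) (L : ℕ) (β : ℝ) (a : Fin s → ℝ) (C : ℝ)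
    (hC : ∀ j : ℕ, volume (Zb k s η L a ∩ Icc 0 (2 ^ j)) ≤
      ENNReal.ofReal (C * (2 : ℝ) ^ ((j : ℝ) * (1 - β)))) :
    ∃ C' : ℝ, ∃ j0 : ℕ, ∀ j : ℕ, j0 ≤ j →
      ∫⁻ α in Icc (0 : ℝ) 1, volume (Zb k (s + 1) η L (Fin.cons α a) ∩ Icc (2 ^ j) (2 ^ (j + 1))) ≤
        ENNReal.ofReal (C' * (2 : ℝ) ^ ((j : ℝ) * (1 - 2 * β))) := by
  refine ⟨6 ^ k * (|C| * (2 : ℝ) ^ (1 - β)) ^ 2, k * (6 * (L + 1)), fun j hj => ?_⟩
  have hkR : (0 : ℝ) < k := by exact_mod_cast (by omega : 0 < k)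
  set y : ℝ := (2 : ℝ) ^ ((j : ℝ) / k) with hy
  have hy0 : 0 < y := by positivity
  have hyk : y ^ k = 2 ^ j := by
    rw [hy, ← Real.rpow_natCast, ← Real.rpow_mul (by norm_num), div_mul_cancel₀ _ hkR.ne',
      Real.rpow_natCast]
  have hybig : 6 * ((L : ℝ) + 1) ≤ y := by
    have h1 : ((6 * (L + 1) : ℕ) : ℝ) ≤ (j : ℝ) / k := by
      rw [le_div_iff₀ hkR]
      have : ((k * (6 * (L + 1)) : ℕ) : ℝ) ≤ j := by exact_mod_cast hj
      push_cast at this ⊢
      linarith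
    have h2 : (2 : ℝ) ^ ((6 * (L + 1) : ℕ) : ℝ) ≤ y :=
      Real.rpow_le_rpow_of_exponent_le (by norm_num) h1
    rw [Real.rpow_natCast] at h2
    have h3 : (6 * (L + 1)) < 2 ^ (6 * (L + 1)) := Nat.lt_two_pow_self
    have h4 : ((6 * (L + 1) : ℕ) : ℝ) ≤ 2 ^ (6 * (L + 1)) := by exact_mod_cast h3.le
    push_cast at h4
    linarith
  set U : ℕ := ⌊y / 3⌋₊ with hU
  have hU1 : (U : ℝ) ≤ y / 3 := Nat.floor_le (by positivity)
  have hU2 : y / 3 < U + 1 := Nat.lt_floor_add_one _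
  have hLnn : (0 : ℝ) ≤ L := Nat.cast_nonneg _
  have hU3 : y / 6 ≤ U := by linarith
  have hUL : L ≤ U := by
    have : (L : ℝ) ≤ U := by linarith
    exact_mod_cast this
  have hU4 : 1 ≤ U := by
    have : (1 : ℝ) ≤ U := by linarith
    exact_mod_cast this
  set Z : Set ℝ := Zb k s η L a ∩ Icc 0 (2 ^ (j + 1)) with hZ
  have hZm : MeasurableSet Z := (measurable_Zb_sec k s η L a).inter measurableSet_Icc
  have hsub : ∀ α ∈ Icc (0 : ℝ) 1, Zb k (s + 1) η L (Fin.cons α a) ∩ Icc (2 ^ j) (2 ^ (j + 1)) ⊆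
      {m : ℝ | ∀ x : ℕ, U ≤ x → x < 3 * U → m - ((x : ℝ) + α) ^ k ∈ Z} := by
    rintro α ⟨hα0, hα1⟩ m ⟨hm, hm1, hm2⟩ x hx1 hx2
    have h1 := Zb_cons k s η L (Fin.cons α a) hm x (hUL.trans hx1)
    simp only [Fin.cons_zero, Fin.cons_succ] at h1
    have hx0 : (0 : ℝ) ≤ x := Nat.cast_nonneg _
    have hpos : 0 ≤ ((x : ℝ) + α) ^ k := by positivity
    refine ⟨h1, ?_, by linarith⟩
    have h2 : (x : ℝ) + 1 ≤ 3 * U := by exact_mod_cast hx2
    have h3 : (x : ℝ) + α ≤ y := by linarith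
    have h4 : ((x : ℝ) + α) ^ k ≤ y ^ k := pow_le_pow_left₀ (by linarith) h3 k
    rw [hyk] at h4
    linarith
  have hsq := squaring k U hk hU4 Z hZm
  have hint : ∫⁻ α in Icc (0 : ℝ) 1,
      volume (Zb k (s + 1) η L (Fin.cons α a) ∩ Icc (2 ^ j) (2 ^ (j + 1))) ≤
      ∫⁻ α in Icc (0 : ℝ) 1, volume {m : ℝ | ∀ x : ℕ, U ≤ x → x < 3 * U →
        m - ((x : ℝ) + α) ^ k ∈ Z} :=
    setLIntegral_mono' measurableSet_Icc fun α hα => measure_mono (hsub α hα)
  refine hint.trans (hsq.trans ?_)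
  have hZv : volume Z ≤ ENNReal.ofReal (|C| * (2 : ℝ) ^ (((j + 1 : ℕ) : ℝ) * (1 - β))) := by
    refine (hC (j + 1)).trans (ENNReal.ofReal_le_ofReal ?_)
    exact mul_le_mul_of_nonneg_right (le_abs_self C) (by positivity)
  have hUk : (0 : ℝ) < (U : ℝ) ^ k := by
    have : (0 : ℝ) < U := by exact_mod_cast hU4
    positivity
  calc volume Z * volume Z / ENNReal.ofReal ((U : ℝ) ^ k)
      ≤ ENNReal.ofReal (|C| * (2 : ℝ) ^ (((j + 1 : ℕ) : ℝ) * (1 - β))) *
        ENNReal.ofReal (|C| * (2 : ℝ) ^ (((j + 1 : ℕ) : ℝ) * (1 - β))) /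
        ENNReal.ofReal ((U : ℝ) ^ k) :=
        ENNReal.div_le_div_right (mul_le_mul' hZv hZv) _
    _ = ENNReal.ofReal ((|C| * (2 : ℝ) ^ (((j + 1 : ℕ) : ℝ) * (1 - β))) *
        (|C| * (2 : ℝ) ^ (((j + 1 : ℕ) : ℝ) * (1 - β))) / (U : ℝ) ^ k) := by
        rw [← ENNReal.ofReal_mul (by positivity), ENNReal.ofReal_div_of_pos hUk]
    _ ≤ _ := by
        apply ENNReal.ofReal_le_ofReal
        have h5 : (2 : ℝ) ^ j / 6 ^ k ≤ (U : ℝ) ^ k := by
          rw [← hyk, ← div_pow]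
          exact pow_le_pow_left₀ (by positivity) hU3 k
        have h6 : (0 : ℝ) < (2 : ℝ) ^ j / 6 ^ k := by positivity
        refine (div_le_div_of_nonneg_left (by positivity) h6 h5).trans (le_of_eq ?_)
        have e1 : (2 : ℝ) ^ (((j + 1 : ℕ) : ℝ) * (1 - β)) =
            (2 : ℝ) ^ (1 - β) * (2 : ℝ) ^ ((j : ℝ) * (1 - β)) := by
          rw [← Real.rpow_add (by norm_num)]
          congr 1
          push_cast
          ring
        have e2 : (2 : ℝ) ^ ((j : ℝ) * (1 - 2 * β)) =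
            (2 : ℝ) ^ ((j : ℝ) * (1 - β)) * (2 : ℝ) ^ ((j : ℝ) * (1 - β)) / 2 ^ j := by
          rw [← Real.rpow_natCast 2 j, ← Real.rpow_add (by norm_num), ← Real.rpow_sub (by norm_num)]
          congr 1
          ring
        rw [e1, e2]
        field_simp

theorem measurable_cons (s : ℕ) :
    Measurable (fun x : ℝ × (Fin s → ℝ) => (Fin.cons x.1 x.2 : Fin (s + 1) → ℝ)) := by
  rw [measurable_pi_iff]
  intro i
  refine Fin.cases ?_ (fun i => ?_) i
  · simpa using measurable_fst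
  · simp only [Fin.cons_succ]
    exact (measurable_pi_apply i).comp measurable_snd

theorem ae_cons (s : ℕ) (p : (Fin (s + 1) → ℝ) → Prop) (hp : MeasurableSet {a | p a})
    (h : ∀ᵐ a ∂PP s, ∀ᵐ α ∂((volume : Measure ℝ).restrict (Icc (0 : ℝ) 1)), p (Fin.cons α a)) :
    ∀ᵐ a ∂PP (s + 1), p a := by
  set ν : Measure ℝ := (volume : Measure ℝ).restrict (Icc (0 : ℝ) 1) with hν
  have hmp := measurePreserving_piFinSuccAbove (fun _ : Fin (s + 1) => ν) 0
  have hms : MeasurableSet {x : ℝ × (Fin s → ℝ) | p (Fin.cons x.1 x.2)} := measurable_cons s hp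
  have hPP : PP s = Measure.pi (fun _ : Fin s => ν) := rfl
  have hPP1 : PP (s + 1) = Measure.pi (fun _ : Fin (s + 1) => ν) := rfl
  have : SFinite (PP s) := by rw [hPP]; infer_instance
  have h1 : ∀ᵐ α ∂ν, ∀ᵐ a ∂PP s, p (Fin.cons α a) := by
    rw [Measure.ae_ae_comm hms]
    exact h
  have h2 : ∀ᵐ x ∂(ν.prod (PP s)), p (Fin.cons x.1 x.2) := by
    rw [Measure.ae_prod_iff_ae_ae hms]
    exact h1
  have h3 := hmp.quasiMeasurePreserving.ae (p := fun x : ℝ × (Fin s → ℝ) => p (Fin.cons x.1 x.2)) h2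
  rw [hPP1]
  filter_upwards [h3] with a ha
  have : (Fin.cons (MeasurableEquiv.piFinSuccAbove (fun _ : Fin (s + 1) => ℝ) 0 a).1
      (MeasurableEquiv.piFinSuccAbove (fun _ : Fin (s + 1) => ℝ) 0 a).2 : Fin (s + 1) → ℝ) = a := by
    funext i
    refine Fin.cases ?_ (fun i => ?_) i
    · rfl
    · rfl
  rw [this] at ha
  exact ha

theorem step_Dp (k s : ℕ) (hk : 2 ≤ k) (β β' : ℝ) (h1 : β' < 2 * β) (h2 : β' < 1)
    (h : Dp k s β) : Dp k (s + 1) β' := by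
  intro η hη L
  have hmeas : ∀ I : Set ℝ, MeasurableSet I → Measurable fun a : Fin (s + 1) → ℝ =>
      volume (Zb k (s + 1) η L a ∩ I) := fun I hI => meas_vol k (s + 1) η L hI
  have key : ∀ᵐ a ∂PP (s + 1), ∃ C : ℕ, ∀ j : ℕ,
      volume (Zb k (s + 1) η L a ∩ Icc 0 (2 ^ j)) ≤
        ENNReal.ofReal ((C : ℝ) * (2 : ℝ) ^ ((j : ℝ) * (1 - β'))) := by
    apply ae_cons
    · have : {a : Fin (s + 1) → ℝ | ∃ C : ℕ, ∀ j : ℕ,
          volume (Zb k (s + 1) η L a ∩ Icc 0 (2 ^ j)) ≤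
          ENNReal.ofReal ((C : ℝ) * (2 : ℝ) ^ ((j : ℝ) * (1 - β')))} =
          ⋃ C : ℕ, ⋂ j : ℕ, {a | volume (Zb k (s + 1) η L a ∩ Icc 0 (2 ^ j)) ≤
          ENNReal.ofReal ((C : ℝ) * (2 : ℝ) ^ ((j : ℝ) * (1 - β')))} := by
        ext a; simp
      rw [this]
      exact MeasurableSet.iUnion fun C => MeasurableSet.iInter fun j =>
        measurableSet_le (hmeas _ measurableSet_Icc) measurable_const
    · filter_upwards [h η hη L] with a ⟨C, hC⟩
      obtain ⟨C', j0, hC'⟩ := step_int k s hk η L β a C hC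
      have hb := ae_bound ((volume : Measure ℝ).restrict (Icc (0 : ℝ) 1))
        (fun j α => volume (Zb k (s + 1) η L (Fin.cons α a) ∩ Icc (2 ^ j) (2 ^ (j + 1))))
        (fun j => (hmeas _ measurableSet_Icc).comp
          ((measurable_cons s).comp (measurable_id.prodMk measurable_const)))
        C' (1 - 2 * β) (1 - β') j0 hC' (by linarith) (fun j α =>
          (measure_mono inter_subset_right).trans_lt (by simp [Real.volume_Icc]))
      filter_upwards [hb] with α ⟨C1, hC1, hC2⟩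
      obtain ⟨C3, hC3⟩ := dyadic_sum (Zb k (s + 1) η L (Fin.cons α a)) C1 (1 - β') hC1
        (by linarith) hC2
      obtain ⟨N, hN⟩ := exists_nat_ge C3
      refine ⟨N, fun j => (hC3 j).trans (ENNReal.ofReal_le_ofReal ?_)⟩
      exact mul_le_mul_of_nonneg_right hN (by positivity)
  filter_upwards [key] with a ⟨C, hC⟩
  exact ⟨C, hC⟩

theorem step_Fp (k s : ℕ) (hk : 2 ≤ k) (β : ℝ) (h1 : 1 / 2 < β) (h : Dp k s β) :
    Fp k (s + 1) := by
  intro η hη L
  have hmeas : ∀ I : Set ℝ, MeasurableSet I → Measurable fun a : Fin (s + 1) → ℝ =>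
      volume (Zb k (s + 1) η L a ∩ I) := fun I hI => meas_vol k (s + 1) η L hI
  apply ae_cons
  · exact measurableSet_tendsto (nhds 0) (fun j => hmeas _ measurableSet_Icc)
  · filter_upwards [h η hη L] with a ⟨C, hC⟩
    obtain ⟨C', j0, hC'⟩ := step_int k s hk η L β a C hC
    exact ae_tendsto ((volume : Measure ℝ).restrict (Icc (0 : ℝ) 1))
      (fun j α => volume (Zb k (s + 1) η L (Fin.cons α a) ∩ Icc (2 ^ j) (2 ^ (j + 1))))
      (fun j => (hmeas _ measurableSet_Icc).comp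
        ((measurable_cons s).comp (measurable_id.prodMk measurable_const)))
      C' (1 - 2 * β) j0 hC' (by linarith)

end Pool.H19.Wb
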