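import Pool.Agent.H19.Wb.Base
import Pool.Agent.H19.Wb.Step

/-!
# Module FINAL: for `s >= k + 2 + log_2 k` almost every shift is good
-/

set_option autoImplicit false

namespace Pool.H19.Wb

open MeasureTheory Set Filter Pool.H19.Wa

theorem all_Dp (k : ℕ) (hk : 4 ≤ k) (t : ℕ) : ∀ β : ℝ, β < 1 → β < 2 ^ t / k →
    Dp k (k + 1 + t) β := by
  induction t with
  | zero =>
    intro β _ h2
    exact base_Dp k hk β (by simpa using h2)
  | succ t ih =>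
    intro β h1 h2
    have hkR : (0 : ℝ) < k := by exact_mod_cast (by omega : 0 < k)
    have h3 : β / 2 < min ((2 : ℝ) ^ t / k) 1 := by
      apply lt_min
      · have : (2 : ℝ) ^ (t + 1) / k = 2 * (2 ^ t / k) := by ring
        rw [this] at h2
        linarith
      · linarith
    obtain ⟨β1, h4, h5⟩ := exists_between h3
    have h6 := ih β1 (h5.trans_le (min_le_right _ _)) (h5.trans_le (min_le_left _ _))
    exact step_Dp k (k + 1 + t) (by omega) β1 β (by linarith) h1 h6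

theorem all_Fp (k s : ℕ) (hk : 4 ≤ k) (hs : k + 2 + Nat.log 2 k ≤ s) : Fp k s := by
  obtain ⟨t, rfl⟩ : ∃ t, s = k + 1 + t + 1 := ⟨s - k - 2, by omega⟩
  have hkR : (0 : ℝ) < k := by exact_mod_cast (by omega : 0 < k)
  have h1 : k < 2 ^ (t + 1) :=
    (Nat.lt_pow_succ_log_self (by norm_num : 1 < 2) k).trans_le
      (Nat.pow_le_pow_right (by norm_num) (by omega))
  have h2 : (k : ℝ) < 2 ^ (t + 1) := by exact_mod_cast h1
  have h3 : (1 : ℝ) / 2 < min ((2 : ℝ) ^ t / k) 1 := by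
    apply lt_min
    · rw [lt_div_iff₀ hkR]
      have : (2 : ℝ) ^ (t + 1) = 2 * 2 ^ t := by ring
      rw [this] at h2
      linarith
    · norm_num
  obtain ⟨β, h4, h5⟩ := exists_between h3
  exact step_Fp k (k + 1 + t) (by omega) β h4
    (all_Dp k hk t β (h5.trans_le (min_le_right _ _)) (h5.trans_le (min_le_left _ _)))

theorem Zb_mono (k s : ℕ) (L : ℕ) (a : Fin s → ℝ) {η η' : ℝ} (h : η' ≤ η) :
    Zb k s η L a ⊆ Zb k s η' L a := by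
  intro m hm x hx h2
  exact hm x hx ⟨h2.1, by linarith [h2.2]⟩

/-- the good property in the unit cube, with all variables at least `L` -/
theorem cube_good (k s : ℕ) (h : Fp k s) (L : ℕ) :
    ∀ᵐ a ∂PP s, ∀ η : ℝ, 0 < η → ∃ T : ℝ, ∀ τ : ℝ, T ≤ τ → ∃ x : Fin s → ℕ, (∀ i, L ≤ x i) ∧
      τ ≤ ∑ i, ((x i : ℝ) + a i) ^ k ∧ ∑ i, ((x i : ℝ) + a i) ^ k < τ + η := by
  have hall : ∀ᵐ a ∂PP s, ∀ n : ℕ, Tendsto (fun j : ℕ =>
      volume (Zb k s (1 / ((n : ℝ) + 1)) L a ∩ Icc (2 ^ j) (2 ^ (j + 1)))) atTop (nhds 0) :=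
    ae_all_iff.2 fun n => h _ (by positivity) L
  filter_upwards [hall] with a ha η hη
  obtain ⟨n, hn⟩ := exists_nat_one_div_lt (by positivity : 0 < η / 2)
  set d : ℝ := min (η / 2) 1 with hd
  have hd0 : 0 < d := lt_min (by positivity) one_pos
  have hd1 : d ≤ 1 := min_le_right _ _
  have hd2 : d ≤ η / 2 := min_le_left _ _
  have hev := (ha n).eventually (gt_mem_nhds (ENNReal.ofReal_pos.2 (by positivity : 0 < d / 2)))
  obtain ⟨j0, hj0⟩ := eventually_atTop.1 hev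
  refine ⟨2 ^ j0, fun τ hτ => ?_⟩
  by_contra hcon
  have hmem : τ ∈ Zb k s η L a := by
    intro x hx hx2
    exact hcon ⟨x, hx, hx2⟩
  have hI := Zb_half k s η hη L a hmem
  have hI2 : Icc τ (τ + η / 2) ⊆ Zb k s (1 / ((n : ℝ) + 1)) L a :=
    hI.trans (Zb_mono k s L a hn.le)
  have h1τ : (1 : ℝ) ≤ τ := (one_le_pow₀ (by norm_num)).trans hτ
  obtain ⟨j, hj1, hj2⟩ := exists_nat_pow_near h1τ (by norm_num : (1 : ℝ) < 2)
  have hjj : j0 ≤ j := by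
    by_contra hlt
    push Not at hlt
    have : (2 : ℝ) ^ (j + 1) ≤ 2 ^ j0 := pow_le_pow_right₀ (by norm_num) hlt
    linarith
  have hsub : Icc τ (τ + d) ⊆
      (Zb k s (1 / ((n : ℝ) + 1)) L a ∩ Icc (2 ^ j) (2 ^ (j + 1))) ∪
      (Zb k s (1 / ((n : ℝ) + 1)) L a ∩ Icc (2 ^ (j + 1)) (2 ^ (j + 1 + 1))) := by
    rintro y ⟨hy1, hy2⟩
    have hyZ : y ∈ Zb k s (1 / ((n : ℝ) + 1)) L a := hI2 ⟨hy1, by linarith⟩
    rcases le_total y (2 ^ (j + 1)) with h3 | h3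
    · exact Or.inl ⟨hyZ, by linarith, h3⟩
    · refine Or.inr ⟨hyZ, h3, ?_⟩
      have h4 : (1 : ℝ) ≤ 2 ^ (j + 1) := one_le_pow₀ (by norm_num)
      have h5 : (2 : ℝ) ^ (j + 1 + 1) = 2 * 2 ^ (j + 1) := by ring
      rw [h5]
      linarith
  have hvol : ENNReal.ofReal d ≤
      volume (Zb k s (1 / ((n : ℝ) + 1)) L a ∩ Icc (2 ^ j) (2 ^ (j + 1))) +
      volume (Zb k s (1 / ((n : ℝ) + 1)) L a ∩ Icc (2 ^ (j + 1)) (2 ^ (j + 1 + 1))) := by
    refine le_trans (le_of_eq ?_) ((measure_mono hsub).trans (measure_union_le _ _))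
    rw [Real.volume_Icc]
    congr 1
    ring
  have hlt := ENNReal.add_lt_add (hj0 j hjj) (hj0 (j + 1) (by omega))
  rw [← ENNReal.ofReal_add (by positivity) (by positivity), add_halves] at hlt
  exact absurd (hvol.trans_lt hlt) (lt_irrefl _)

theorem all_shifts (k s : ℕ) (hk : 4 ≤ k) (hs : k + 2 + Nat.log 2 k ≤ s) :
    ∀ᵐ a : Fin s → ℝ, ∀ η : ℝ, 0 < η → ∃ T : ℝ, ∀ τ : ℝ, T ≤ τ → ∃ x : Fin s → ℕ,
      τ ≤ ∑ i, ((x i : ℝ) + a i) ^ k ∧ ∑ i, ((x i : ℝ) + a i) ^ k < τ + η := by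
  have hF := all_Fp k s hk hs
  set cube : Set (Fin s → ℝ) := Set.pi univ (fun _ : Fin s => Icc (0 : ℝ) 1) with hcube
  have hPP : PP s = (volume : Measure (Fin s → ℝ)).restrict cube := by
    rw [volume_pi, hcube, Measure.restrict_pi_pi]
    rfl
  have hcm : MeasurableSet cube := MeasurableSet.univ_pi fun _ => measurableSet_Icc
  have hL : ∀ L : ℕ, ∀ᵐ a : Fin s → ℝ, a ∈ cube → ∀ η : ℝ, 0 < η → ∃ T : ℝ, ∀ τ : ℝ, T ≤ τ →
      ∃ x : Fin s → ℕ, (∀ i, L ≤ x i) ∧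
      τ ≤ ∑ i, ((x i : ℝ) + a i) ^ k ∧ ∑ i, ((x i : ℝ) + a i) ^ k < τ + η := by
    intro L
    have := cube_good k s hF L
    rw [hPP, ae_restrict_iff' hcm] at this
    exact this
  have hz : ∀ z : Fin s → ℤ, ∀ᵐ a : Fin s → ℝ, (a - fun i => (z i : ℝ)) ∈ cube →
      ∀ η : ℝ, 0 < η → ∃ T : ℝ, ∀ τ : ℝ, T ≤ τ →
      ∃ x : Fin s → ℕ, (∀ i, (∑ i, (z i).natAbs) ≤ x i) ∧
      τ ≤ ∑ i, ((x i : ℝ) + (a - fun i => (z i : ℝ)) i) ^ k ∧
      ∑ i, ((x i : ℝ) + (a - fun i => (z i : ℝ)) i) ^ k < τ + η := fun z =>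
    (measurePreserving_sub_right (volume : Measure (Fin s → ℝ))
      (fun i => (z i : ℝ))).quasiMeasurePreserving.ae (hL (∑ i, (z i).natAbs))
  filter_upwards [ae_all_iff.2 hz] with a ha η hη
  have hc : (a - fun i => ((⌊a i⌋ : ℤ) : ℝ)) ∈ cube := by
    rw [hcube, Set.mem_univ_pi]
    intro i
    exact ⟨sub_nonneg.2 (Int.floor_le _), by
      have := (Int.lt_floor_add_one (a i)).le
      simp only [Pi.sub_apply]
      linarith⟩
  obtain ⟨T, hT⟩ := ha (fun i => ⌊a i⌋) hc η hη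
  refine ⟨T, fun τ hτ => ?_⟩
  obtain ⟨x, hx1, hx2, hx3⟩ := hT τ hτ
  have hxi : ∀ i, ((((x i : ℤ) - ⌊a i⌋).toNat : ℕ) : ℝ) + a i =
      (x i : ℝ) + (a - fun i => ((⌊a i⌋ : ℤ) : ℝ)) i := by
    intro i
    have h1 : (⌊a i⌋).natAbs ≤ x i :=
      (Finset.single_le_sum (f := fun i => (⌊a i⌋).natAbs) (fun _ _ => Nat.zero_le _)
        (Finset.mem_univ i)).trans (hx1 i)
    have h2 : ((((x i : ℤ) - ⌊a i⌋).toNat : ℕ) : ℤ) = (x i : ℤ) - ⌊a i⌋ :=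
      Int.toNat_of_nonneg (by omega)
    have h3 : ((((x i : ℤ) - ⌊a i⌋).toNat : ℕ) : ℝ) = (x i : ℝ) - (⌊a i⌋ : ℝ) := by
      exact_mod_cast congrArg (fun n : ℤ => (n : ℝ)) h2
    rw [h3, Pi.sub_apply]
    ring
  refine ⟨fun i => ((x i : ℤ) - ⌊a i⌋).toNat, ?_⟩
  simp only [hxi]
  exact ⟨hx2, hx3⟩

end Pool.H19.Wb
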